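import Pool.Agent.AT3.Stmts1

/-!
# ARI: the arithmetic lemma
-/

set_option autoImplicit false

open scoped BigOperators

namespace Pool.Agent.PP.T3.H72

/-- no entry is divisible by `ℓ` -/
theorem ari_nd {ℓ K : ℕ} {ρ ι : Type} [Fintype ρ] [Fintype ι] {a : ρ → ι → ℤ} (h3 : 3 ≤ ℓ)
    (hK : 2 * K < ℓ * Fintype.card ι) (hne : ∀ r i, a r i ≠ 0)
    (hcong : ∀ r i i', (ℓ : ℤ) ∣ a r i - a r i') (hrow : ∀ r, ∑ i, (a r i) ^ 2 ≤ (K : ℤ)) :
    ∀ r i, ¬ (ℓ : ℤ) ∣ a r i := by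
  intro r i hd
  have hL : (3 : ℤ) ≤ (ℓ : ℤ) := by exact_mod_cast h3
  have h1 : ∀ i', (ℓ : ℤ) ^ 2 ≤ (a r i') ^ 2 := by
    intro i'
    have hd' : (ℓ : ℤ) ∣ a r i' := by
      have := dvd_sub hd (hcong r i i')
      rwa [sub_sub_cancel] at this
    have h2 : (ℓ : ℤ) ≤ |a r i'| :=
      Int.le_of_dvd (abs_pos.2 (hne r i')) ((dvd_abs _ _).2 hd')
    rw [← sq_abs (a r i')]
    exact pow_le_pow_left₀ (by linarith) h2 2
  have h2 : (Fintype.card ι : ℤ) * (ℓ : ℤ) ^ 2 ≤ (K : ℤ) := by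
    refine le_trans ?_ (hrow r)
    calc (Fintype.card ι : ℤ) * (ℓ : ℤ) ^ 2 = ∑ _i' : ι, (ℓ : ℤ) ^ 2 := by
          rw [Finset.sum_const, Finset.card_univ, nsmul_eq_mul]
      _ ≤ _ := Finset.sum_le_sum fun i' _ => h1 i'
  have h4 : (2 : ℤ) * K < ℓ * Fintype.card ι := by exact_mod_cast hK
  have hn : (0 : ℤ) ≤ (Fintype.card ι : ℤ) := Int.natCast_nonneg _
  nlinarith [mul_nonneg hn (mul_nonneg (by linarith : (0 : ℤ) ≤ (ℓ : ℤ))
    (by linarith : (0 : ℤ) ≤ 2 * (ℓ : ℤ) - 1))]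

/-- the sign and the residue of a row -/
theorem ari_st {ℓ : ℕ} (h3 : 3 ≤ ℓ) (hodd : Odd ℓ) {ι : Type} (b : ι → ℤ) (i0 : ι)
    (hnd : ¬ (ℓ : ℤ) ∣ b i0) (hcong : ∀ i, (ℓ : ℤ) ∣ b i0 - b i) :
    ∃ s t : ℤ, s ^ 2 = 1 ∧ 1 ≤ t ∧ 2 * t < ℓ ∧ ∀ i, (ℓ : ℤ) ∣ t - s * b i := by
  have hL : (3 : ℤ) ≤ (ℓ : ℤ) := by exact_mod_cast h3
  have hL0 : (ℓ : ℤ) ≠ 0 := by linarith
  set c : ℤ := b i0 % ℓ with hc
  have hc0 : 0 ≤ c := Int.emod_nonneg _ hL0
  have hc1 : c < ℓ := Int.emod_lt_of_pos _ (by linarith)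
  have hc2 : c ≠ 0 := fun h => hnd (Int.dvd_of_emod_eq_zero h)
  have hdc : (ℓ : ℤ) ∣ b i0 - c := Int.dvd_self_sub_emod
  have hd : ∀ i, (ℓ : ℤ) ∣ b i - c := by
    intro i
    have := dvd_sub hdc (hcong i)
    have e : b i0 - c - (b i0 - b i) = b i - c := by ring
    rwa [e] at this
  obtain ⟨q, hq⟩ := hodd
  have hqz : (ℓ : ℤ) = 2 * q + 1 := by exact_mod_cast hq
  by_cases h : 2 * c < ℓ
  · refine ⟨1, c, by norm_num, by omega, h, fun i => ?_⟩
    have := (dvd_neg (α := ℤ)).2 (hd i)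
    have e : -(b i - c) = c - 1 * b i := by ring
    rwa [e] at this
  · refine ⟨-1, ℓ - c, by norm_num, by omega, by omega, fun i => ?_⟩
    have := dvd_add (dvd_refl (ℓ : ℤ)) (hd i)
    have e : (ℓ : ℤ) + (b i - c) = ℓ - c - -1 * b i := by ring
    rwa [e] at this

theorem ari_sq (L T J : ℤ) (_hL : 0 ≤ L) : T ^ 2 - (2 * T - L) * L * J ≤ (T - L * J) ^ 2 := by
  have h : J ≤ J ^ 2 := by
    rcases le_or_gt J 0 with h | h
    · exact h.trans (sq_nonneg J)
    · nlinarith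
  nlinarith [mul_nonneg (sq_nonneg L) (sub_nonneg.2 h)]

theorem ari_sq2 (L T J : ℤ) (hT : 0 ≤ T) (hTL : 2 * T ≤ L) : T ^ 2 ≤ (T - L * J) ^ 2 := by
  have hL : 0 ≤ L := by linarith
  rcases le_or_gt J 0 with h | h
  · have h1 : T ≤ T - L * J := by nlinarith
    nlinarith
  · have h1 : L ≤ L * J := by nlinarith
    nlinarith

/-- the sum over one row -/
theorem ari_row {L K n t S : ℤ} (hL : 3 ≤ L) (hn : 0 ≤ n) (hK : 2 * K < L * n) (ht : 1 ≤ t)
    (htL : 2 * t < L) (h : n * t ^ 2 + (L - 2 * t) * L * S ≤ K) : (L - 2) * L * S ≤ K - n := by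
  have e1 : (K - n) * (L - 2 * t) - (K - n * t ^ 2) * (L - 2) =
      (t - 1) * (n * (L * (t + 1) - 2 * t) - 2 * K) := by ring
  have e2 : 0 ≤ (t - 1) * (n * (L * (t + 1) - 2 * t) - 2 * K) := by
    refine mul_nonneg (by linarith) ?_
    have h1 : n * L ≤ n * (L * (t + 1) - 2 * t) := by
      refine mul_le_mul_of_nonneg_left ?_ hn
      nlinarith
    nlinarith
  have h2 : (L - 2 * t) * L * S ≤ K - n * t ^ 2 := by linarith
  have h3 : (L - 2) * ((L - 2 * t) * L * S) ≤ (L - 2) * (K - n * t ^ 2) :=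
    mul_le_mul_of_nonneg_left h2 (by linarith)
  have h4 : (L - 2 * t) * ((L - 2) * L * S) ≤ (L - 2 * t) * (K - n) := by
    have e3 : (L - 2 * t) * ((L - 2) * L * S) = (L - 2) * ((L - 2 * t) * L * S) := by ring
    rw [e3]
    linarith [mul_comm (L - 2 * t) (K - n), mul_comm (L - 2) (K - n * t ^ 2)]
  exact le_of_mul_le_mul_left h4 (by linarith)

/-- the final contradiction in the case `ℓ < 2 T` -/
theorem ari_fin {L K n R T : ℤ} (hL : 3 ≤ L) (hn : 0 < n) (hK0 : 0 ≤ K) (hK : 2 * K < L * n)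
    (hR : 0 < R) (hRT : R ≤ T) (hT : L < 2 * T)
    (h : (L - 2) * n * T ^ 2 - (2 * T - L) * (R * (K - n)) ≤ (L - 2) * (K * R)) : False := by
  have hb : 0 < (L - 1) * n - K := by nlinarith
  by_cases hc : L ≤ 2 * R
  · have e1 : (L - 2) * n * T ^ 2 - (2 * T - L) * (R * (K - n)) - (L - 2) * (K * R) =
        (T - R) * ((L - 2) * n * (T + R) - 2 * R * (K - n)) + R * (R - 1) * (L * n - 2 * K) := by
      ring
    have h1 : 0 ≤ (T - R) * ((L - 2) * n * (T + R) - 2 * R * (K - n)) := by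
      refine mul_nonneg (by linarith) ?_
      have h2 : (L - 2) * n * (2 * R) ≤ (L - 2) * n * (T + R) :=
        mul_le_mul_of_nonneg_left (by linarith) (mul_nonneg (by linarith) hn.le)
      nlinarith [mul_pos hR hb]
    have h3 : 0 < R * (R - 1) * (L * n - 2 * K) :=
      mul_pos (mul_pos hR (by linarith)) (by linarith)
    linarith
  · push Not at hc
    have e1 : 4 * ((L - 2) * n * T ^ 2 - (2 * T - L) * (R * (K - n)) - (L - 2) * (K * R)) =
        (2 * T - L) * ((L - 2) * n * (2 * T + L) - 4 * R * (K - n)) +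
          (L - 2) * (n * L ^ 2 - 4 * (K * R)) := by ring
    have h1 : 0 < (2 * T - L) * ((L - 2) * n * (2 * T + L) - 4 * R * (K - n)) := by
      refine mul_pos (by linarith) ?_
      have h2 : (L - 2) * n * (4 * R) ≤ (L - 2) * n * (2 * T + L) :=
        mul_le_mul_of_nonneg_left (by linarith) (mul_nonneg (by linarith) hn.le)
      nlinarith [mul_pos hR hb]
    have h3 : 0 ≤ (L - 2) * (n * L ^ 2 - 4 * (K * R)) := by
      refine mul_nonneg (by linarith) ?_
      have h4 : K * (2 * R) ≤ K * L := mul_le_mul_of_nonneg_left hc.le hK0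
      have h5 : 2 * K * L ≤ L * n * L := mul_le_mul_of_nonneg_right hK.le (by linarith)
      nlinarith
    linarith

/-- ARI -/
theorem ari : AriStmt := by
  classical
  intro ℓ K ρ ι _ _ a h3 hodd hK hne hcong hs
  rcases Nat.eq_zero_or_pos (Fintype.card ρ) with hR0 | hR0
  · rw [hR0, zero_mul]
    exact Nat.zero_le _
  have hn0 : 0 < Fintype.card ι := by
    rcases Nat.eq_zero_or_pos (Fintype.card ι) with h | h
    · rw [h, mul_zero] at hK
      omega
    · exact h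
  obtain ⟨i0⟩ := Fintype.card_pos_iff.1 hn0
  have hrow : ∀ r, ∑ i, (a r i) ^ 2 ≤ (K : ℤ) := by
    intro r
    have h := hs (Pi.single r 1)
    have e1 : ∀ i, ∑ r', (Pi.single r 1 : ρ → ℤ) r' * a r' i = a r i := by
      intro i
      rw [Finset.sum_eq_single r]
      · rw [Pi.single_eq_same, one_mul]
      · intro r' _ hr'
        rw [Pi.single_eq_of_ne hr', zero_mul]
      · intro hr
        exact absurd (Finset.mem_univ r) hr
    have e2 : ∑ r', ((Pi.single r 1 : ρ → ℤ) r') ^ 2 = 1 := by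
      rw [Finset.sum_eq_single r]
      · rw [Pi.single_eq_same, one_pow]
      · intro r' _ hr'
        rw [Pi.single_eq_of_ne hr']
        norm_num
      · intro hr
        exact absurd (Finset.mem_univ r) hr
    simp only [e1, e2, mul_one] at h
    exact h
  have hnd := ari_nd h3 hK hne hcong hrow
  have hst : ∀ r, ∃ s t : ℤ, s ^ 2 = 1 ∧ 1 ≤ t ∧ 2 * t < ℓ ∧ ∀ i, (ℓ : ℤ) ∣ t - s * a r i :=
    fun r => ari_st h3 hodd (a r) i0 (hnd r i0) fun i => hcong r i0 i
  choose s t hs1 ht1 ht2 hdv using hst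
  choose j hj using hdv
  set L : ℤ := (ℓ : ℤ) with hLdef
  set n : ℤ := (Fintype.card ι : ℤ) with hndef
  set R : ℤ := (Fintype.card ρ : ℤ) with hRdef
  have hL : 3 ≤ L := by rw [hLdef]; exact_mod_cast h3
  have hn : 0 < n := by rw [hndef]; exact_mod_cast hn0
  have hR : 0 < R := by rw [hRdef]; exact_mod_cast hR0
  have hKz : 2 * (K : ℤ) < L * n := by rw [hLdef, hndef]; exact_mod_cast hK
  have hK0 : (0 : ℤ) ≤ (K : ℤ) := Int.natCast_nonneg _
  set T : ℤ := ∑ r, t r with hTdef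
  have hRT : R ≤ T := by
    rw [hRdef, hTdef]
    calc (Fintype.card ρ : ℤ) = ∑ _r : ρ, (1 : ℤ) := by
          rw [Finset.sum_const, Finset.card_univ, nsmul_eq_mul, mul_one]
      _ ≤ _ := Finset.sum_le_sum fun r _ => ht1 r
  have hsa : ∀ r i, s r * a r i = t r - L * j r i := by
    intro r i
    have := hj r i
    linarith
  have hcol : ∀ i, ∑ r, s r * a r i = T - L * ∑ r, j r i := by
    intro i
    rw [Finset.sum_congr rfl fun r _ => hsa r i, Finset.sum_sub_distrib, ← Finset.mul_sum]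
  have hmain : ∑ i, (T - L * ∑ r, j r i) ^ 2 ≤ (K : ℤ) * R := by
    have h := hs s
    have e1 : ∑ r, s r ^ 2 = R := by
      rw [Finset.sum_congr rfl fun r _ => hs1 r, Finset.sum_const, Finset.card_univ, nsmul_eq_mul,
        mul_one]
    rw [e1] at h
    rwa [Finset.sum_congr rfl fun i _ => by rw [hcol i]] at h
  have hsum_const : ∀ c : ℤ, ∑ _i : ι, c = n * c := by
    intro c
    rw [Finset.sum_const, Finset.card_univ, nsmul_eq_mul]
  have goalz : R * n ≤ (K : ℤ) := by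
    by_cases hT : 2 * T ≤ L
    · have h1 : n * T ^ 2 ≤ (K : ℤ) * R := by
        refine le_trans ?_ hmain
        rw [← hsum_const]
        exact Finset.sum_le_sum fun i _ => ari_sq2 L T _ (by linarith) hT
      have hT0 : 0 < T := by linarith
      have h2 : (n * T) * T ≤ (K : ℤ) * T := by
        calc (n * T) * T = n * T ^ 2 := by ring
          _ ≤ (K : ℤ) * R := h1
          _ ≤ (K : ℤ) * T := mul_le_mul_of_nonneg_left hRT hK0
      have h4 : n * T ≤ (K : ℤ) := le_of_mul_le_mul_right h2 hT0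
      have h5 : n * R ≤ n * T := mul_le_mul_of_nonneg_left hRT hn.le
      linarith [mul_comm n R]
    · exfalso
      push Not at hT
      -- the sum over the rows
      have hrs : ∀ r, (L - 2) * L * ∑ i, j r i ≤ (K : ℤ) - n := by
        intro r
        refine ari_row hL hn.le hKz (ht1 r) (ht2 r) ?_
        have h1 : ∑ i, (t r ^ 2 - (2 * t r - L) * L * j r i) ≤ (K : ℤ) := by
          refine le_trans (Finset.sum_le_sum fun i _ => ?_) (hrow r)
          have h2 : (a r i) ^ 2 = (t r - L * j r i) ^ 2 := by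
            rw [← hsa r i, mul_pow, hs1 r, one_mul]
          rw [h2]
          exact ari_sq L (t r) (j r i) (by linarith)
        rw [Finset.sum_sub_distrib, hsum_const, ← Finset.mul_sum] at h1
        have e : n * t r ^ 2 + (L - 2 * t r) * L * ∑ i, j r i =
            n * t r ^ 2 - (2 * t r - L) * L * ∑ i, j r i := by ring
        rw [e]
        exact h1
      have hJ : (L - 2) * L * ∑ i, ∑ r, j r i ≤ R * ((K : ℤ) - n) := by
        rw [Finset.sum_comm, Finset.mul_sum]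
        calc ∑ r, (L - 2) * L * ∑ i, j r i ≤ ∑ _r : ρ, ((K : ℤ) - n) :=
              Finset.sum_le_sum fun r _ => hrs r
          _ = R * ((K : ℤ) - n) := by
              rw [Finset.sum_const, Finset.card_univ, nsmul_eq_mul]
      have h2 : n * T ^ 2 - (2 * T - L) * L * ∑ i, ∑ r, j r i ≤ (K : ℤ) * R := by
        refine le_trans (le_of_eq ?_) (le_trans (Finset.sum_le_sum fun i _ =>
          ari_sq L T (∑ r, j r i) (by linarith)) hmain)
        rw [Finset.sum_sub_distrib, hsum_const, ← Finset.mul_sum]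
      refine ari_fin hL hn hK0 hKz hR hRT hT ?_
      have h5 : (2 * T - L) * ((L - 2) * L * ∑ i, ∑ r, j r i) ≤
          (2 * T - L) * (R * ((K : ℤ) - n)) :=
        mul_le_mul_of_nonneg_left hJ (by linarith)
      have h6 : (L - 2) * (n * T ^ 2 - (2 * T - L) * L * ∑ i, ∑ r, j r i) ≤
          (L - 2) * ((K : ℤ) * R) := mul_le_mul_of_nonneg_left h2 (by linarith)
      have e7 : (L - 2) * (n * T ^ 2 - (2 * T - L) * L * ∑ i, ∑ r, j r i) =
          (L - 2) * n * T ^ 2 - (2 * T - L) * ((L - 2) * L * ∑ i, ∑ r, j r i) := by ring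
      rw [e7] at h6
      linarith
  have hfin : ((Fintype.card ρ * Fintype.card ι : ℕ) : ℤ) ≤ ((K : ℕ) : ℤ) := by
    push_cast
    exact goalz
  exact_mod_cast hfin

end Pool.Agent.PP.T3.H72
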