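import Pool.Agent.AT3.Stmts2
import Pool.Agent.Helper82_K9.WBO
import Pool.Agent.Helper82_K9.TRB
import Pool.Agent.Helper53_K9.Tra
import Pool.Agent.Helper25_K9.PRG
import Pool.Agent.Helper86_K9.SEC
import Pool.Agent.Helper32_KF.St1

/-!
# NIB: Bessel's inequality for a block of inertial index one
-/

set_option autoImplicit false

open scoped BigOperators

noncomputable section

namespace Pool.Agent.PP.T3.H72

open Pool.Agent.Helper51_AWC Pool.Agent.Helper79_WRA Pool.Agent.PP Pool.Agent.PP.KF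
open Pool.Agent.PP.K9 Pool.Agent.PP.K9.H97 Pool.Agent.PP.H75

attribute [local instance] Ideal.Quotient.field

section conj2

variable {F G : Type} [Field F] [Group G] [Finite G] {X Y : Subgroup G} {b : G → F}

theorem ix_cj2 (h : Ix X b) {g : G} (hXY : ∀ y, y ∈ Y ↔ g⁻¹ * y * g ∈ X) :
    Ix Y (cj g b) := by
  have hs : ∀ x, x ∉ Y → H75.cj g b x = 0 := by
    intro x hx
    apply h.supp
    rwa [← hXY]
  refine ⟨hs, ?_, ?_⟩
  · intro x y
    change b (g⁻¹ * ((y : G) * x * (y : G)⁻¹) * g) = b (g⁻¹ * x * g)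
    have hy : g⁻¹ * (y : G) * g ∈ X := (hXY _).1 y.2
    have h2 := (cj_eq_iff _ _).1 (h.inv hy) (g⁻¹ * x * g)
    rw [← h2]
    congr 1
    group
  · rw [← mulF_res Y (H75.cj g b) hs, ← cj_mulF, h.mul]

theorem bx_cj2 (h : Bx X b) {g : G} (hXY : ∀ y, y ∈ Y ↔ g⁻¹ * y * g ∈ X) :
    Bx Y (cj g b) := by
  have hYX : ∀ x, x ∈ X ↔ (g⁻¹)⁻¹ * x * g⁻¹ ∈ Y := by
    intro x
    rw [hXY]
    have e : g⁻¹ * ((g⁻¹)⁻¹ * x * g⁻¹) * g = x := by group
    rw [e]
  have h1 := ix_cj2 h.ix hXY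
  refine ⟨h1.supp, h1.idem, ?_, ?_⟩
  · intro h0
    apply h.ne
    have h2 : H75.cj g b = 0 := eq_of_res h1.supp (fun _ _ => rfl) h0
    have h3 := congrArg (H75.cj g⁻¹) h2
    rw [cj_inv_cj, cj_zero] at h3
    exact h3
  · intro a ha
    have hax : Ix Y (H75.ext0 Y a) := by
      refine ⟨ext0_supp Y a, ?_⟩
      have : (fun t : Y => H75.ext0 Y a t) = a := funext (ext0_apply Y a)
      rw [this]
      exact ha
    have h2 := ix_cj2 hax hYX
    have h4 : mulF (fun t : Y => H75.cj g b t) a =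
        fun t : Y => mulF (H75.cj g b) (H75.ext0 Y a) t := by
      rw [mulF_res Y _ h1.supp]
      congr 1
      exact (funext (ext0_apply Y a)).symm
    rw [h4]
    have h5 : mulF (H75.cj g b) (H75.ext0 Y a) =
        H75.cj g (mulF b (H75.cj g⁻¹ (H75.ext0 Y a))) := by
      rw [cj_mulF, cj_cj_inv]
    rcases h.dich' h2 with h3 | h3
    · left
      rw [h5, h3]
    · right
      rw [h5, h3, cj_zero]
      rfl

end conj2

section elem

variable {H : Type} [Group H]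

theorem cent_prod {χ : H → ℂ} (hχ : χ ∈ Irr H) {z : H} (hz : z ∈ Subgroup.center H) (g : H) :
    χ z * χ g = χ 1 * χ (z * g) := by
  rw [KF.H32.central_mul hχ hz g]
  have h1 : χ 1 ≠ 0 := irr_one_ne hχ
  field_simp

theorem cent_norm [Finite H] {χ : H → ℂ} (hχ : χ ∈ Irr H) {z : H}
    (hz : z ∈ Subgroup.center H) : Complex.normSq (χ z) = Complex.normSq (χ 1) := by
  have h1 := cent_prod hχ hz z⁻¹
  rw [mul_inv_cancel] at h1
  have h2 : starRingEnd ℂ (χ z) = χ z⁻¹ := H94.irr_star hχ z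
  have h3 : starRingEnd ℂ (χ 1) = χ 1 := by
    rw [H94.irr_star hχ, inv_one]
  have h4 : ((Complex.normSq (χ z) : ℝ) : ℂ) = ((Complex.normSq (χ 1) : ℝ) : ℂ) := by
    rw [← Complex.mul_conj, ← Complex.mul_conj, h2, h3, h1]
  exact_mod_cast h4

/-- a product of commuting regular elements is regular -/
theorem reg_mul {ℓ : ℕ} {a b : H} (hab : Commute a b) (ha : Reg ℓ a) (hb : Reg ℓ b) :
    Reg ℓ (a * b) := by
  unfold Reg at *
  have h1 : orderOf (a * b) ∣ orderOf a * orderOf b :=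
    (hab.orderOf_mul_dvd_lcm).trans (Nat.lcm_dvd_mul _ _)
  exact Nat.Coprime.coprime_dvd_left h1 (Nat.Coprime.mul_left ha hb)

theorem el_reg {ℓ : ℕ} {y : H} (hy : El ℓ y) (hr : Reg ℓ y) : y = 1 := by
  obtain ⟨n, hn⟩ := hy
  have h1 : orderOf y ∣ ℓ ^ n := orderOf_dvd_of_pow_eq_one hn
  have h2 : (orderOf y).Coprime (ℓ ^ n) := Nat.Coprime.pow_right n hr
  have h3 : orderOf y = 1 := Nat.Coprime.eq_one_of_dvd h2 h1
  exact orderOf_eq_one_iff.1 h3

/-- a nontrivial `ℓ`-element times a commuting regular element is singular -/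
theorem sing_mul {ℓ : ℕ} {y s : H} (hy : El ℓ y) (hy1 : y ≠ 1) (hc : Commute y s)
    (hs : Reg ℓ s) : ¬ Reg ℓ (y * s) := by
  intro h
  apply hy1
  refine el_reg hy ?_
  have h1 : Reg ℓ s⁻¹ := H25.reg_inv.2 hs
  have h2 : Commute (y * s) s⁻¹ := by
    have h3 : Commute s s⁻¹ := (Commute.refl s).inv_right
    exact (hc.inv_right).mul_left h3
  have h3 := reg_mul h2 h h1
  rwa [mul_inv_cancel_right] at h3

theorem el_of_mem {ℓ : ℕ} {V : Subgroup H} (hV : IsPGroup ℓ V) {x : H} (hx : x ∈ V) :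
    El ℓ x := by
  obtain ⟨n, hn⟩ := hV ⟨x, hx⟩
  refine ⟨n, ?_⟩
  have := congrArg (fun t : V => (t : H)) hn
  simpa using this

end elem

theorem wbo_ : WboStmt := H82W.wbo (H82.trb H53.tra)

section sums

variable {H : Type} [Group H] [Fintype H] {ℓ : ℕ} [Fact ℓ.Prime]
  {M : Ideal (integralClosure ℤ ℂ)} [M.IsMaximal]

/-- the sum over the block of `χ(x) conj χ(g)`, `x` central -/
theorem sum_cent (b : H → FF M) {x : H} (hx : x ∈ Subgroup.center H) (g : H) :
    ∑ χ ∈ (H25.irrE_finite M b).toFinset, χ x * starRingEnd ℂ (χ g) = pr M b (x * g⁻¹) := by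
  rw [H25.pr_eq]
  refine Finset.sum_congr rfl fun χ hχ => ?_
  rw [Set.Finite.mem_toFinset] at hχ
  rw [H94.irr_star hχ.1, cent_prod hχ.1 hx]

/-- conjugate of `χ(w b)` -/
theorem gv_star {C : Subgroup H} [Fintype C] (w : H) (b : H → FF M) (χ : H → ℂ) :
    starRingEnd ℂ (gv M C w b χ) =
      ∑ s : C, starRingEnd ℂ (eh M (fun t : C => b t) s) * starRingEnd ℂ (χ (w * s)) := by
  unfold gv gbv
  rw [finsum_eq_sum_of_fintype, map_sum]
  exact Finset.sum_congr rfl fun s _ => map_mul _ _ _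

/-- orthogonality of the central and of the other vectors -/
theorem sum_mixed (hM : (ℓ : integralClosure ℤ ℂ) ∈ M) {b : H → FF M} (hb : IsIdem b)
    {x x' : H} (hx : x ∈ Subgroup.center H) (hxe : El ℓ (x * x'⁻¹)) (hne : x ≠ x')
    {c : H → FF M} (hc : Ix (Cu x') c) :
    ∑ χ ∈ (H25.irrE_finite M b).toFinset, χ x * starRingEnd ℂ (gv M (Cu x') x' c χ) = 0 := by
  have := Fintype.ofFinite (Cu x')
  have e1 : ∑ χ ∈ (H25.irrE_finite M b).toFinset, χ x * starRingEnd ℂ (gv M (Cu x') x' c χ) =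
      ∑ s : Cu x', starRingEnd ℂ (eh M (fun t : Cu x' => c t) s) *
        pr M b (x * (x' * s)⁻¹) := by
    have e2 : ∀ χ ∈ (H25.irrE_finite M b).toFinset,
        χ x * starRingEnd ℂ (gv M (Cu x') x' c χ) =
        ∑ s : Cu x', starRingEnd ℂ (eh M (fun t : Cu x' => c t) s) *
          (χ x * starRingEnd ℂ (χ (x' * s))) := by
      intro χ _
      rw [gv_star x' c χ, Finset.mul_sum]
      refine Finset.sum_congr rfl fun s _ => ?_
      ring
    rw [Finset.sum_congr rfl e2, Finset.sum_comm]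
    refine Finset.sum_congr rfl fun s _ => ?_
    rw [← Finset.mul_sum, sum_cent b hx]
  rw [e1]
  refine Finset.sum_eq_zero fun s _ => ?_
  by_cases hs : Reg ℓ s
  · have hs2 : Reg ℓ (s : H) := by
      unfold Reg at hs ⊢
      rwa [Subgroup.orderOf_coe]
    have hcom : Commute x' (s : H) := by
      have h1 := Subgroup.mem_centralizer_singleton_iff.1 s.2
      exact h1.symm
    have hcx : Commute x (s : H) := (Subgroup.mem_center_iff.1 hx s).symm
    have e3 : x * (x' * s)⁻¹ = (x * x'⁻¹) * (s : H)⁻¹ := by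
      have h2 : (x' * (s : H))⁻¹ = x'⁻¹ * (s : H)⁻¹ := by
        rw [hcom.eq, mul_inv_rev]
      rw [h2, mul_assoc]
    have hcom2 : Commute (x * x'⁻¹) (s : H)⁻¹ :=
      (hcx.mul_left hcom.inv_left).inv_right
    have hne2 : x * x'⁻¹ ≠ 1 := by
      intro h
      exact hne (mul_inv_eq_one.1 h)
    have h4 : ¬ Reg ℓ (x * (x' * s)⁻¹) := by
      rw [e3]
      exact sing_mul hxe hne2 hcom2 (H25.reg_inv.2 hs2)
    rw [(H25.rc_pr wbo_ ℓ M hM H b hb).sg _ h4, mul_zero]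
  · rw [H25.eh_sing wbo_ ℓ M hM _ hc.idem s hs, map_zero, zero_mul]

/-- orthogonality of two noncentral vectors -/
theorem orth_ss (fus : FusStmt) (co2 : Co2Stmt) (hM : (ℓ : integralClosure ℤ ℂ) ∈ M)
    {b : H → FF M} {V : Subgroup H} {γ : H → FF M} (hL : Ld ℓ b V γ) (hix : ix V γ = 1)
    {x x' : H} (hx : x ∈ V) (hx' : x' ∈ V) (hne : x ≠ x') {c c' : H → FF M}
    (hc : Lc b V γ x c) (hc' : Lc b V γ x' c') :
    ∑ᶠ χ ∈ Irr H, gv M (Cu x) x c χ * starRingEnd ℂ (gv M (Cu x') x' c' χ) = 0 := by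
  refine co2 ℓ M hM H x x' (el_of_mem hL.tp.pg hx) (el_of_mem hL.tp.pg hx') c c' hc.blk.ix
    hc'.blk.ix fun g hg => ?_
  have hXY : ∀ y, y ∈ Cu x ↔ g⁻¹ * y * g ∈ Cu x' := by
    intro y
    rw [Subgroup.mem_centralizer_singleton_iff, Subgroup.mem_centralizer_singleton_iff, ← hg]
    constructor
    · intro h
      have h1 : g⁻¹ * y * g * x' = g⁻¹ * (y * (g * x' * g⁻¹)) * g := by group
      rw [h1, h]
      group
    · intro h
      have h1 : y * (g * x' * g⁻¹) = g * (g⁻¹ * y * g * x') * g⁻¹ := by group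
      rw [h1, h]
      group
  have hb : Bx (Cu x) (cj g c') := bx_cj2 hc'.blk hXY
  rcases hc.blk.dich hb with h | h
  · exfalso
    obtain ⟨t, ht, ht2⟩ := fus ℓ M hM H b V γ hL x hx x' hx' c c' hc hc' g hg h.symm
    have hle : Tg V γ ≤ Subgroup.centralizer (V : Set H) := Subgroup.relIndex_eq_one.1 hix
    have h2 := Subgroup.mem_centralizer_iff.1 (hle ht) x' hx'
    apply hne
    rw [← ht2, ← h2, mul_inv_cancel_right]
  · exact h

end sums

/-- NIB -/
theorem nib (fus : FusStmt) (co1 : Co1Stmt) (co2 : Co2Stmt) (bes : BesStmt) : NibStmt := by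
  classical
  intro ℓ _ M _ hM H _ _ b V γ hL hix S Z hS hZ c d hcd κ hκ
  have := Fintype.ofFinite H
  have := Fintype.ofFinite (Irr H)
  -- the norm in the block
  set σ : ℝ := ∑ᶠ χ ∈ IrrE M b, Complex.normSq (χ 1) with hσdef
  have hσ1 : σ = ∑ χ ∈ (H25.irrE_finite M b).toFinset, Complex.normSq (χ 1) := by
    rw [hσdef, finsum_mem_eq_finite_toFinset_sum _ (H25.irrE_finite M b)]
  have hκ1 : 0 < Complex.normSq (κ 1) := Complex.normSq_pos.2 (irr_one_ne hκ.1)
  have hσ0 : 0 < σ := by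
    rw [hσ1]
    refine lt_of_lt_of_le hκ1 (Finset.single_le_sum (f := fun χ : H → ℂ => Complex.normSq (χ 1))
      (fun χ _ => Complex.normSq_nonneg _) ((Set.Finite.mem_toFinset _).2 hκ))
  have hV0 : 0 < (Nat.card V : ℝ) := by exact_mod_cast Nat.card_pos
  have hpr1 : pr M b 1 = (σ : ℂ) := by
    rw [H25.pr_eq, hσ1, Complex.ofReal_sum]
    refine Finset.sum_congr rfl fun χ hχ => ?_
    rw [Set.Finite.mem_toFinset] at hχ
    rw [← Complex.mul_conj, H94.irr_star hχ.1, inv_one]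
  -- the degrees
  have hd : ∀ x ∈ S, (0 : ℝ) < d x := fun x hx => by exact_mod_cast (hcd x hx).2.1.1
  have hxV : ∀ x ∈ S, x ∈ V := fun x hx => ((hS x).1 hx).1
  have hnorm : ∀ x ∈ S, ∑ᶠ χ ∈ Irr H, gv M (Cu x) x (c x) χ *
      starRingEnd ℂ (gv M (Cu x) x (c x) χ) = ((Nat.card V : ℝ) * (d x) ^ 2 : ℝ) := by
    intro x hx
    obtain ⟨h1, h2, h3⟩ := hcd x hx
    rw [co1 ℓ M hM H x (el_of_mem hL.tp.pg (hxV x hx)) (c x) h1.blk.ix]
    have := Fintype.ofFinite (Cu x)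
    rw [finsum_mem_eq_finite_toFinset_sum _ (H25.irrE_finite M _)]
    have h4 : ∀ θ ∈ (H25.irrE_finite M (fun t : Cu x => c x t)).toFinset,
        θ 1 ^ 2 = ((d x : ℂ)) ^ 2 := by
      intro θ hθ
      rw [Set.Finite.mem_toFinset] at hθ
      rw [h2.2 θ hθ]
    rw [Finset.sum_congr rfl h4, Finset.sum_const, ← Set.ncard_eq_toFinset_card _ _, h3,
      nsmul_eq_mul]
    push_cast
    ring
  -- the vectors
  let v : (S ⊕ Z) → (Irr H) → ℂ := Sum.elim
    (fun x χ => gv M (Cu (x : H)) x (c x) χ / ((d x * Real.sqrt (Nat.card V) : ℝ) : ℂ))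
    (fun x χ => if (χ : H → ℂ) ∈ IrrE M b then (χ : H → ℂ) x / ((Real.sqrt σ : ℝ) : ℂ) else 0)
  have hsum_blk : ∀ f : (H → ℂ) → ℂ, ∑ χ : Irr H, (if (χ : H → ℂ) ∈ IrrE M b then f χ else 0) =
      ∑ χ ∈ (H25.irrE_finite M b).toFinset, f χ := by
    intro f
    rw [← K9.H86.finsum_irr (fun χ => if χ ∈ IrrE M b then f χ else 0),
      ← finsum_mem_eq_finite_toFinset_sum _ (H25.irrE_finite M b)]
    rw [finsum_mem_eq_finite_toFinset_sum _ (Set.toFinite (Irr H)),
      finsum_mem_eq_finite_toFinset_sum _ (H25.irrE_finite M b), ← Finset.sum_filter]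
    refine Finset.sum_congr ?_ fun _ _ => rfl
    ext χ
    simp only [Finset.mem_filter, Set.Finite.mem_toFinset]
    exact ⟨fun h => h.2, fun h => ⟨h.1, h⟩⟩
  have hα : ∀ x ∈ S, (0 : ℝ) < d x * Real.sqrt (Nat.card V) := fun x hx =>
    mul_pos (hd x hx) (Real.sqrt_pos.2 hV0)
  have hsσ : 0 < Real.sqrt σ := Real.sqrt_pos.2 hσ0
  have hcr : ∀ r : ℝ, starRingEnd ℂ ((r : ℝ) : ℂ) = (r : ℂ) := fun r => Complex.conj_ofReal r
  have helm : ∀ z ∈ V, ∀ x ∈ V, El ℓ (z * x⁻¹) := fun z hz x hx =>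
    el_of_mem hL.tp.pg (V.mul_mem hz (V.inv_mem hx))
  have hmix : ∀ z ∈ Z, ∀ x ∈ S, ∑ χ ∈ (H25.irrE_finite M b).toFinset,
      χ z * starRingEnd ℂ (gv M (Cu x) x (c x) χ) = 0 := by
    intro z hz x hx
    have h1 := (hZ z).1 hz
    have h2 := (hS x).1 hx
    refine sum_mixed hM hL.blk.1 h1.2 (helm z h1.1 x h2.1) ?_ (hcd x hx).1.blk.ix
    intro h
    exact h2.2 (h ▸ h1.2)
  have gram : ∀ i i' : S ⊕ Z, ∑ χ, v i χ * starRingEnd ℂ (v i' χ) = if i = i' then 1 else 0 := by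
    intro i i'
    rcases i with x | z <;> rcases i' with x' | z'
    · -- both noncentral
      have e1 : ∑ χ, v (Sum.inl x) χ * starRingEnd ℂ (v (Sum.inl x') χ) =
          (∑ᶠ χ ∈ Irr H, gv M (Cu (x : H)) x (c x) χ *
            starRingEnd ℂ (gv M (Cu (x' : H)) x' (c x') χ)) /
          (((d x * Real.sqrt (Nat.card V) : ℝ) : ℂ) * ((d x' * Real.sqrt (Nat.card V) : ℝ) : ℂ)) := by
        rw [K9.H86.finsum_irr, Finset.sum_div]
        refine Finset.sum_congr rfl fun χ _ => ?_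
        change gv M (Cu (x : H)) x (c x) χ / ((d x * Real.sqrt (Nat.card V) : ℝ) : ℂ) *
          starRingEnd ℂ (gv M (Cu (x' : H)) x' (c x') χ /
            ((d x' * Real.sqrt (Nat.card V) : ℝ) : ℂ)) = _
        rw [map_div₀, hcr, div_mul_div_comm]
      rw [e1]
      by_cases h : x = x'
      · subst h
        rw [if_pos rfl, hnorm x x.2, ← Complex.ofReal_mul, ← Complex.ofReal_div]
        have h1 : (Nat.card V : ℝ) * (d x) ^ 2 / (d x * Real.sqrt (Nat.card V) *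
            (d x * Real.sqrt (Nat.card V))) = 1 := by
          have h2 : (d x * Real.sqrt (Nat.card V) * (d x * Real.sqrt (Nat.card V)) : ℝ) =
              (Nat.card V : ℝ) * (d x) ^ 2 := by
            have h3 := Real.mul_self_sqrt hV0.le
            linear_combination ((d x : ℝ) ^ 2) * h3
          rw [h2]
          exact div_self (mul_pos hV0 (pow_pos (hd x x.2) 2)).ne'
        rw [h1, Complex.ofReal_one]
      · have h1 : (x : H) ≠ x' := fun h' => h (Subtype.ext h')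
        rw [orth_ss fus co2 hM hL hix (hxV x x.2) (hxV x' x'.2) h1 (hcd x x.2).1
          (hcd x' x'.2).1, zero_div, if_neg]
        intro h'
        exact h (Sum.inl_injective h')
    · -- noncentral, central
      rw [if_neg (by simp)]
      have e1 : ∀ χ : Irr H, v (Sum.inl x) χ * starRingEnd ℂ (v (Sum.inr z') χ) =
          if (χ : H → ℂ) ∈ IrrE M b then starRingEnd ℂ ((χ : H → ℂ) z' *
            starRingEnd ℂ (gv M (Cu (x : H)) x (c x) χ)) *
            (((d x * Real.sqrt (Nat.card V) : ℝ) : ℂ)⁻¹ * ((Real.sqrt σ : ℝ) : ℂ)⁻¹) else 0 := by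
        intro χ
        change gv M (Cu (x : H)) x (c x) χ / ((d x * Real.sqrt (Nat.card V) : ℝ) : ℂ) *
          starRingEnd ℂ (if (χ : H → ℂ) ∈ IrrE M b then
            (χ : H → ℂ) z' / ((Real.sqrt σ : ℝ) : ℂ) else 0) = _
        split_ifs with h
        · rw [map_div₀, hcr, map_mul, Complex.conj_conj]
          ring
        · rw [map_zero, mul_zero]
      rw [Finset.sum_congr rfl fun χ _ => e1 χ,
        hsum_blk fun χ => starRingEnd ℂ (χ z' * starRingEnd ℂ (gv M (Cu (x : H)) x (c x) χ)) *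
            (((d x * Real.sqrt (Nat.card V) : ℝ) : ℂ)⁻¹ * ((Real.sqrt σ : ℝ) : ℂ)⁻¹),
        ← Finset.sum_mul, ← map_sum, hmix z' z'.2 x x.2, map_zero, zero_mul]
    · -- central, noncentral
      rw [if_neg (by simp)]
      have e1 : ∀ χ : Irr H, v (Sum.inr z) χ * starRingEnd ℂ (v (Sum.inl x') χ) =
          if (χ : H → ℂ) ∈ IrrE M b then ((χ : H → ℂ) z *
            starRingEnd ℂ (gv M (Cu (x' : H)) x' (c x') χ)) *
            (((d x' * Real.sqrt (Nat.card V) : ℝ) : ℂ)⁻¹ * ((Real.sqrt σ : ℝ) : ℂ)⁻¹) else 0 := by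
        intro χ
        change (if (χ : H → ℂ) ∈ IrrE M b then
            (χ : H → ℂ) z / ((Real.sqrt σ : ℝ) : ℂ) else 0) *
          starRingEnd ℂ (gv M (Cu (x' : H)) x' (c x') χ /
            ((d x' * Real.sqrt (Nat.card V) : ℝ) : ℂ)) = _
        split_ifs with h
        · rw [map_div₀, hcr]
          ring
        · rw [zero_mul]
      rw [Finset.sum_congr rfl fun χ _ => e1 χ,
        hsum_blk fun χ => (χ z * starRingEnd ℂ (gv M (Cu (x' : H)) x' (c x') χ)) *
            (((d x' * Real.sqrt (Nat.card V) : ℝ) : ℂ)⁻¹ * ((Real.sqrt σ : ℝ) : ℂ)⁻¹),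
        ← Finset.sum_mul, hmix z z.2 x' x'.2, zero_mul]
    · -- both central
      have e1 : ∀ χ : Irr H, v (Sum.inr z) χ * starRingEnd ℂ (v (Sum.inr z') χ) =
          if (χ : H → ℂ) ∈ IrrE M b then ((χ : H → ℂ) z * starRingEnd ℂ ((χ : H → ℂ) z')) *
            ((σ : ℝ) : ℂ)⁻¹ else 0 := by
        intro χ
        change (if (χ : H → ℂ) ∈ IrrE M b then
            (χ : H → ℂ) z / ((Real.sqrt σ : ℝ) : ℂ) else 0) *
          starRingEnd ℂ (if (χ : H → ℂ) ∈ IrrE M b then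
            (χ : H → ℂ) z' / ((Real.sqrt σ : ℝ) : ℂ) else 0) = _
        split_ifs with h
        · rw [map_div₀, hcr, div_mul_div_comm, ← Complex.ofReal_mul, Real.mul_self_sqrt hσ0.le]
          rfl
        · rw [zero_mul]
      rw [Finset.sum_congr rfl fun χ _ => e1 χ,
        hsum_blk fun χ => (χ z * starRingEnd ℂ (χ z')) * ((σ : ℝ) : ℂ)⁻¹,
        ← Finset.sum_mul, sum_cent b ((hZ z).1 z.2).2]
      by_cases h : z = z'
      · subst h
        rw [if_pos rfl, mul_inv_cancel, hpr1]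
        exact mul_inv_cancel₀ (by exact_mod_cast hσ0.ne')
      · have h1 : (z : H) * (z' : H)⁻¹ ≠ 1 := fun h' => h (Subtype.ext (mul_inv_eq_one.1 h'))
        have h2 : ¬ Reg ℓ ((z : H) * (z' : H)⁻¹) := fun h' =>
          h1 (el_reg (helm z ((hZ z).1 z.2).1 z' ((hZ z').1 z'.2).1) h')
        rw [(H25.rc_pr wbo_ ℓ M hM H b hL.blk.1).sg _ h2, zero_mul, if_neg]
        intro h'
        exact h (Sum.inr_injective h')
  have hrow : ∀ i, ∑ i', ‖∑ k, v i k * starRingEnd ℂ (v i' k)‖ ≤ (1 : ℝ) := by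
    intro i
    rw [Finset.sum_eq_single i]
    · rw [gram, if_pos rfl, norm_one]
    · intro i' _ hi
      rw [gram, if_neg (Ne.symm hi), norm_zero]
    · intro h
      exact absurd (Finset.mem_univ i) h
  have hB := bes (S ⊕ Z) (Irr H) v 1 zero_le_one hrow (Pi.single ⟨κ, hκ.1⟩ 1)
  have e3 : ∀ i, ∑ k, (Pi.single (⟨κ, hκ.1⟩ : Irr H) (1 : ℂ) : Irr H → ℂ) k * v i k =
      v i ⟨κ, hκ.1⟩ := by
    intro i
    rw [Finset.sum_eq_single (⟨κ, hκ.1⟩ : Irr H)]
    · rw [Pi.single_eq_same, one_mul]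
    · intro k _ hk
      rw [Pi.single_eq_of_ne hk, zero_mul]
    · intro h
      exact absurd (Finset.mem_univ _) h
  have e4 : ∑ k, Complex.normSq ((Pi.single (⟨κ, hκ.1⟩ : Irr H) (1 : ℂ) : Irr H → ℂ) k) = 1 := by
    rw [Finset.sum_eq_single (⟨κ, hκ.1⟩ : Irr H)]
    · rw [Pi.single_eq_same, Complex.normSq_one]
    · intro k _ hk
      rw [Pi.single_eq_of_ne hk, Complex.normSq_zero]
    · intro h
      exact absurd (Finset.mem_univ _) h
  simp only [e3] at hB
  rw [e4, mul_one, Fintype.sum_sum_type] at hB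
  have e5 : ∑ x : S, Complex.normSq (v (Sum.inl x) ⟨κ, hκ.1⟩) =
      (∑ x ∈ S, Complex.normSq (gv M (Cu x) x (c x) κ / d x)) / Nat.card V := by
    rw [Finset.sum_div, ← Finset.sum_coe_sort S]
    refine Finset.sum_congr rfl fun x _ => ?_
    change Complex.normSq (gv M (Cu (x : H)) x (c x) κ /
      ((d x * Real.sqrt (Nat.card V) : ℝ) : ℂ)) = _
    have h1 : gv M (Cu (x : H)) x (c x) κ / ((d x * Real.sqrt (Nat.card V) : ℝ) : ℂ) =
        gv M (Cu (x : H)) x (c x) κ / d x / ((Real.sqrt (Nat.card V) : ℝ) : ℂ) := by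
      rw [Complex.ofReal_mul, div_div]
      rfl
    rw [h1, Complex.normSq_div, Complex.normSq_ofReal, Real.mul_self_sqrt hV0.le]
  have e6 : ∑ z : Z, Complex.normSq (v (Sum.inr z) ⟨κ, hκ.1⟩) =
      Z.card * Complex.normSq (κ 1) / σ := by
    have h1 : ∀ z : Z, Complex.normSq (v (Sum.inr z) ⟨κ, hκ.1⟩) =
        Complex.normSq (κ 1) / σ := by
      intro z
      change Complex.normSq (if κ ∈ IrrE M b then κ z / ((Real.sqrt σ : ℝ) : ℂ) else 0) = _
      rw [if_pos hκ, Complex.normSq_div, Complex.normSq_ofReal, Real.mul_self_sqrt hσ0.le,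
        cent_norm hκ.1 ((hZ z).1 z.2).2]
    rw [Finset.sum_congr rfl fun z _ => h1 z, Finset.sum_const, Finset.card_univ,
      Fintype.card_coe, nsmul_eq_mul, mul_div_assoc]
  rw [e5, e6] at hB
  exact hB

end Pool.Agent.PP.T3.H72
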